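import Pool.Agent.Lib.MP_dab48e_gt.Grp

/-!
A finitely presented group `G` of type FL and a 3-torsion module `M` over `ℤ[G × ℤ]` with a finite
free resolution, isomorphic to its restriction along `(g, n) ↦ (g, k n)` for every `k ≥ 1`, and not
finitely generated over the kernel of any nontrivial homomorphism `G × ℤ → ℤ`.
-/

namespace Pool.Agent.Results.MP_dab48e_gt.NotFinite

open Pool.Agent.Lib.MP_dab48e_gt MonoidAlgebra

theorem result : ∃ (G : Type) (_ : Group G), Group.IsFinitelyPresented G ∧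
    FFR (MonoidAlgebra ℤ G) 4 (Representation.trivial ℤ G ℤ).asModule ∧
    ∃ (M : Type) (_ : AddCommGroup M) (_ : Module (MonoidAlgebra ℤ (G × Multiplicative ℤ)) M),
      FFR (MonoidAlgebra ℤ (G × Multiplicative ℤ)) 4 M ∧ (∀ m : M, 3 • m = 0) ∧
      (∀ k : ℕ, 1 ≤ k → ∃ e : M ≃+ M, ∀ (g : G) (n : Multiplicative ℤ) (m : M),
        e (single (g, n) (1 : ℤ) • m) = single (g, n ^ k) (1 : ℤ) • e m) ∧
      ∀ φ : G × Multiplicative ℤ →* Multiplicative ℤ, φ ≠ 1 → ∀ S : Set M, S.Finite →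
        AddSubgroup.closure {y | ∃ γ ∈ φ.ker, ∃ x ∈ S, y = single γ (1 : ℤ) • x} ≠ ⊤ := by
  obtain ⟨G, _, a, b, s, t, hG, h⟩ := exists_univ
  have h2 : Two (i₁ a) (i₁ b) :=
    ⟨fun g => Prod.ext (h.two.cen g.1) (mul_comm _ _), fun n m e => h.two.ind n m congr(($e).1)⟩
  have ht : i₁ a * i₁ t = i₁ t * i₁ a * i₁ a := Prod.ext h.rel.ta rfl
  have hs : i₁ a * i₁ s = i₁ s * i₁ a * i₁ b := Prod.ext h.rel.sa rfl
  refine ⟨G, inferInstance, hG, h.fl, Mo (i₁ a) (i₁ b), inferInstance, inferInstance, h2.ffr₃,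
    fun m => (natCast_zsmul m 3).symm.trans (three m), fun k hk => ?_, fun φ h1 => ?_⟩
  · obtain ⟨k, rfl⟩ := Nat.exists_eq_add_of_le' hk
    obtain ⟨e⟩ := h2.power ht hs k
    obtain ⟨F, hF⟩ := self_sim a b k
    exact ⟨e.toAddEquiv.trans F, fun g n m => (congrArg F (e.map_smul _ m)).trans (hF g n _)⟩
  · have ea := congr(φ $ht)
    have eb := congr(φ $hs)
    rw [map_mul, map_mul, map_mul, mul_comm] at ea eb
    exact h2.not_fg φ h1 (left_eq_mul.1 ea) (left_eq_mul.1 eb)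

end Pool.Agent.Results.MP_dab48e_gt.NotFinite
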