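import Pool.Agent.Lib.NFB.Fin2
import Pool.Agent.Lib.NFB.Wh

/-! A closed smooth manifold with torsion free fundamental group `G × ℤ`, with vanishing
Whitehead groups, that is homotopy equivalent to a finite cyclic cover, preserving `G`, and does
not fibre over the circle. -/

namespace Pool.Agent.Results.MP_dab48e_gt.TorsionFreeNoFibre

open FreeGroup
open scoped Manifold ContDiff

/-- the first free generator, `a` -/
def genA : FreeGroup (Fin 4) := of 0

/-- the second free generator, `b` -/
def genB : FreeGroup (Fin 4) := of 1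

/-- the third free generator, `s` -/
def genS : FreeGroup (Fin 4) := of 2

/-- the fourth free generator, `t` -/
def genT : FreeGroup (Fin 4) := of 3

/-- the relators of `ab = ba`, `sb = bs`, `tb = bt`, `at = taa`, `as = sab` -/
def rels : Set (FreeGroup (Fin 4)) :=
  {genA * genB * (genB * genA)⁻¹, genS * genB * (genB * genS)⁻¹, genT * genB * (genB * genT)⁻¹,
    genA * genT * (genT * genA * genA)⁻¹, genA * genS * (genS * genA * genB)⁻¹}

/-- `X` is the total space of a locally trivial bundle over the circle, with some fibre -/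
def Fibres (X : Type) [TopologicalSpace X] : Prop :=
  ∃ (F : Type) (_ : TopologicalSpace F) (f : C(X, Circle)),
    ∀ z : Circle, ∃ e : Bundle.Trivialization F f, z ∈ e.baseSet

/-- `p` is a covering map whose subgroup is the preimage of `kℤ` under `φ` -/
def IsCyclicCover {E M : Type} [TopologicalSpace E] [TopologicalSpace M] (p : C(E, M)) (e₀ : E)
    (φ : FundamentalGroup M (p e₀) →* Multiplicative ℤ) (k : ℕ) : Prop :=
  IsCoveringMap p ∧ (FundamentalGroup.map p e₀).range =
    (Subgroup.zpowers (Multiplicative.ofAdd (k : ℤ))).comap φ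

/-- the map induced by `h`, with the base point moved along `γ`, followed by the map induced by
`p`, sends the subgroup `K` onto itself -/
def Preserves {E M : Type} [TopologicalSpace E] [TopologicalSpace M] (p : C(E, M)) (e₀ : E)
    (h : C(M, E)) (γ : Path (h (p e₀)) e₀) (K : Subgroup (FundamentalGroup M (p e₀))) : Prop :=
  K.map ((FundamentalGroup.map p e₀).comp
    ((FundamentalGroup.fundamentalGroupMulEquivOfPath γ).toMonoidHom.comp
      (FundamentalGroup.map h (p e₀)))) = K

/-- `Γ` is torsion free and isomorphic to `G × ℤ` with `φ` the projection, `φ` is onto, its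
kernel is finitely presented, and the Whitehead groups of the products of the kernel with `ℤ ^ m`
vanish -/
def IsGZ {Γ : Type} [Group Γ] (φ : Γ →* Multiplicative ℤ) : Prop :=
  (∀ g : Γ, IsOfFinOrder g → g = 1) ∧
    (∃ ι : Γ ≃* PresentedGroup rels × Multiplicative ℤ, ∀ x, φ x = (ι x).2) ∧
    Function.Surjective φ ∧ Group.IsFinitelyPresented φ.ker ∧
    ∀ m : ℕ, Subsingleton (WhDet.Wh (φ.ker × Multiplicative (Fin m → ℤ)))

theorem univ : Lib.MP_dab48e_gt.Univ (G := PresentedGroup rels) (.of 0) (.of 1) (.of 2) (.of 3) := by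
  refine ⟨⟨?_, ?_, ?_, ?_, ?_⟩, fun {H} _ A B S T h => ?_, fun K h0 h1 h2 h3 =>
    PresentedGroup.generated_by rels K fun j => by fin_cases j <;> assumption⟩
  iterate 5
    exact PresentedGroup.mk_eq_mk_of_mul_inv_mem (rels := rels)
      (by simp [rels, genA, genB, genS, genT])
  have hf : ∀ r ∈ rels, FreeGroup.lift ![A, B, S, T] r = 1 := by
    simp [rels, genA, genB, genS, genT, h.ab, h.sb, h.tb, h.ta, h.sa]
  exact ⟨PresentedGroup.toGroup hf, PresentedGroup.toGroup.of hf, PresentedGroup.toGroup.of hf,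
    PresentedGroup.toGroup.of hf, PresentedGroup.toGroup.of hf⟩

theorem result :
    ∃ (n : ℕ) (M : Type) (_ : TopologicalSpace M) (_ : T2Space M) (_ : SecondCountableTopology M)
      (_ : CompactSpace M) (_ : ConnectedSpace M) (_ : ChartedSpace (EuclideanSpace ℝ (Fin n)) M)
      (_ : IsManifold (𝓡 n) ∞ M)
      (E : Type) (_ : TopologicalSpace E) (_ : PathConnectedSpace E) (p : C(E, M)) (e₀ : E)
      (φ : FundamentalGroup M (p e₀) →* Multiplicative ℤ) (k : ℕ)
      (h : ContinuousMap.HomotopyEquiv M E) (γ : Path (h.toFun (p e₀)) e₀),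
      IsGZ φ ∧ 1 < k ∧ IsCyclicCover p e₀ φ k ∧ Preserves p e₀ h.toFun γ φ.ker ∧ ¬ Fibres M ∧
      ∀ (M' : Type) [TopologicalSpace M'] [CompactSpace M'] [T2Space M']
        [LocallyPathConnectedSpace M'], Nonempty (ContinuousMap.HomotopyEquiv M' M) →
        ¬ Fibres M' := by
  have : Finite rels := by unfold rels; exact (Set.toFinite _).to_subtype
  obtain ⟨n, M, i1, i2, i3, i4, i5, i6, i7, E, i8, i9, p, e₀, φ, k, h, γ, a1, a2, a3, a4, ⟨ι, a5⟩,
    a6, a7, a8, a9, a10⟩ := Lib.NFB.final inferInstance univ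
  exact ⟨n, M, i1, i2, i3, i4, i5, i6, i7, E, i8, i9, p, e₀, φ, k, h, γ,
    ⟨a4, ⟨ι, a5⟩, a2, a3, Lib.NFB.wh_ker univ ι a5⟩, a6, ⟨a1, a7⟩,
    a8, fun ⟨F, _, f, hf⟩ => a9 F f hf,
    fun M' _ _ _ _ u ⟨F, _, f, hf⟩ => a10 M' u F f hf⟩

end Pool.Agent.Results.MP_dab48e_gt.TorsionFreeNoFibre
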